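import Pool.Agent.H28.BF.Stm

set_option autoImplicit false

/-!
# Project BF: the number of the bad leading coefficients
-/

namespace Pool.Agent.H99.BF

open Finset Filter Topology Polynomial Pool.Agent.H28.BF

lemma norm_ex (x : ℝ) : ‖ex x‖ = 1 := by
  unfold ex
  have h : (2 * Real.pi * x * Complex.I : ℂ) = ((2 * Real.pi * x : ℝ) : ℂ) * Complex.I := by
    push_cast
    ring
  rw [h, Complex.norm_exp_ofReal_mul_I]

lemma ex_sub (x y : ℝ) : ex x * (starRingEnd ℂ) (ex y) = ex (x - y) := by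
  unfold ex
  rw [← Complex.exp_conj, ← Complex.exp_add]
  congr 1
  simp only [map_mul, Complex.conj_ofReal, Complex.conj_I, map_ofNat]
  push_cast
  ring

lemma dual (A : Finset ℝ) (N : ℕ) (f : ℕ → ℂ) (hf : ∀ n, ‖f n‖ ≤ 1) (P : ℝ → ℝ[X]) :
    (∑ a ∈ A, ‖∑ n ∈ Ioc 0 N, f n * ex ((P a).eval (n : ℝ))‖) ^ 2 ≤
      N * ∑ a ∈ A, ∑ b ∈ A, ‖∑ n ∈ Ioc 0 N, ex ((P a - P b).eval (n : ℝ))‖ := by
  classical
  set g : ℝ → ℂ := fun a => ∑ n ∈ Ioc 0 N, f n * ex ((P a).eval (n : ℝ)) with hg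
  have hc : ∀ a, ∃ c : ℂ, ‖c‖ ≤ 1 ∧ c * g a = (‖g a‖ : ℂ) := by
    intro a
    by_cases h : g a = 0
    · exact ⟨0, by simp, by simp [h]⟩
    · have h0 : ‖g a‖ ≠ 0 := norm_ne_zero_iff.2 h
      refine ⟨(starRingEnd ℂ) (g a) / ‖g a‖, ?_, ?_⟩
      · rw [norm_div, RCLike.norm_conj, Complex.norm_real, norm_norm, div_self h0]
      · rw [div_mul_eq_mul_div, mul_comm, Complex.mul_conj, Complex.normSq_eq_norm_sq]
        push_cast
        rw [sq, mul_div_assoc, div_self (by exact_mod_cast h0), mul_one]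
  choose c hc1 hc2 using hc
  set z : ℕ → ℂ := fun n => ∑ a ∈ A, c a * ex ((P a).eval (n : ℝ)) with hz
  have h1 : ∑ a ∈ A, ‖g a‖ ≤ ∑ n ∈ Ioc 0 N, ‖z n‖ := by
    have h2 : ((∑ a ∈ A, ‖g a‖ : ℝ) : ℂ) = ∑ n ∈ Ioc 0 N, f n * z n := by
      rw [Complex.ofReal_sum, ← Finset.sum_congr rfl (fun a _ => hc2 a)]
      simp only [hg, hz, Finset.mul_sum]
      rw [Finset.sum_comm]
      refine Finset.sum_congr rfl fun n _ => Finset.sum_congr rfl fun a _ => by ring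
    have h3 : ‖((∑ a ∈ A, ‖g a‖ : ℝ) : ℂ)‖ ≤ ∑ n ∈ Ioc 0 N, ‖z n‖ := by
      rw [h2]
      refine (norm_sum_le _ _).trans (Finset.sum_le_sum fun n _ => ?_)
      rw [norm_mul]
      exact mul_le_of_le_one_left (norm_nonneg _) (hf n)
    rwa [Complex.norm_real, Real.norm_of_nonneg (Finset.sum_nonneg fun a _ => norm_nonneg _)] at h3
  have h4 : ∑ n ∈ Ioc 0 N, ‖z n‖ ^ 2 ≤
      ∑ a ∈ A, ∑ b ∈ A, ‖∑ n ∈ Ioc 0 N, ex ((P a - P b).eval (n : ℝ))‖ := by
    have h5 : ((∑ n ∈ Ioc 0 N, ‖z n‖ ^ 2 : ℝ) : ℂ) = ∑ a ∈ A, ∑ b ∈ A,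
        c a * (starRingEnd ℂ) (c b) * ∑ n ∈ Ioc 0 N, ex ((P a - P b).eval (n : ℝ)) := by
      have h6 : ∀ n : ℕ, ((‖z n‖ ^ 2 : ℝ) : ℂ) = ∑ a ∈ A, ∑ b ∈ A,
          c a * (starRingEnd ℂ) (c b) * ex ((P a - P b).eval (n : ℝ)) := by
        intro n
        rw [← Complex.normSq_eq_norm_sq, ← Complex.mul_conj]
        simp only [hz, map_sum, map_mul]
        rw [Finset.sum_mul_sum]
        refine Finset.sum_congr rfl fun a _ => Finset.sum_congr rfl fun b _ => ?_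
        rw [Polynomial.eval_sub, ← ex_sub]
        ring
      rw [Complex.ofReal_sum, Finset.sum_congr rfl (fun n _ => h6 n), Finset.sum_comm]
      refine Finset.sum_congr rfl fun a _ => ?_
      rw [Finset.sum_comm]
      refine Finset.sum_congr rfl fun b _ => ?_
      rw [Finset.mul_sum]
    have h7 : ‖((∑ n ∈ Ioc 0 N, ‖z n‖ ^ 2 : ℝ) : ℂ)‖ ≤
        ∑ a ∈ A, ∑ b ∈ A, ‖∑ n ∈ Ioc 0 N, ex ((P a - P b).eval (n : ℝ))‖ := by
      rw [h5]
      refine (norm_sum_le _ _).trans (Finset.sum_le_sum fun a _ =>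
        (norm_sum_le _ _).trans (Finset.sum_le_sum fun b _ => ?_))
      rw [norm_mul, norm_mul, RCLike.norm_conj]
      exact mul_le_of_le_one_left (norm_nonneg _) (mul_le_one₀ (hc1 a) (norm_nonneg _) (hc1 b))
    rwa [Complex.norm_real, Real.norm_of_nonneg (Finset.sum_nonneg fun n _ => by positivity)] at h7
  have h8 := sq_sum_le_card_mul_sum_sq (s := Ioc 0 N) (f := fun n => ‖z n‖)
  rw [Nat.card_Ioc, Nat.sub_zero] at h8
  calc (∑ a ∈ A, ‖g a‖) ^ 2 ≤ (∑ n ∈ Ioc 0 N, ‖z n‖) ^ 2 :=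
        pow_le_pow_left₀ (Finset.sum_nonneg fun a _ => norm_nonneg _) h1 2
    _ ≤ N * ∑ n ∈ Ioc 0 N, ‖z n‖ ^ 2 := h8
    _ ≤ _ := mul_le_mul_of_nonneg_left h4 (Nat.cast_nonneg _)

lemma cnt_sep (C N D : ℕ) (m : ℤ) (hN : 1 ≤ N) (a : ℝ) (ha : (m : ℝ) ≤ a ∧ a ≤ m + 1)
    (B : Finset ℝ) (hB : ∀ b ∈ B, (m : ℝ) ≤ b ∧ b ≤ m + 1)
    (hs : ∀ b ∈ B, ∀ b' ∈ B, b ≠ b' → 1 / (N : ℝ) ^ D < |b - b'|)
    (hq : ∀ b ∈ B, ∃ q : ℕ, 1 ≤ q ∧ q ≤ C ∧ nd (q * (a - b)) ≤ C / (N : ℝ) ^ D) :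
    B.card ≤ (Icc 1 C ×ˢ (Icc (-((C : ℤ) + 1)) ((C : ℤ) + 1) ×ˢ Icc (-(C : ℤ)) (C : ℤ))).card := by
  have hNp : (0 : ℝ) < (N : ℝ) ^ D := by
    have : (0 : ℝ) < N := by exact_mod_cast hN
    positivity
  choose! q hq1 hq2 hq3 using hq
  refine Finset.card_le_card_of_injOn (fun b => (q b, round ((q b : ℝ) * (a - b)),
    ⌊(N : ℝ) ^ D * (b - a + (round ((q b : ℝ) * (a - b)) : ℝ) / q b)⌋)) ?_ ?_
  · intro b hb
    have hb' : b ∈ B := hb
    have hqr : (1 : ℝ) ≤ q b := by exact_mod_cast hq1 b hb'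
    have hqC : (q b : ℝ) ≤ C := by exact_mod_cast hq2 b hb'
    have hab : |a - b| ≤ 1 := by
      rw [abs_le]
      have := hB b hb'
      constructor <;> linarith
    have hx : |(q b : ℝ) * (a - b)| ≤ C := by
      rw [abs_mul, abs_of_nonneg (by linarith)]
      calc (q b : ℝ) * |a - b| ≤ q b * 1 := by gcongr
        _ ≤ C := by linarith
    have hr := abs_sub_round ((q b : ℝ) * (a - b))
    have h3 := hq3 b hb'
    unfold nd at h3
    set r : ℤ := round ((q b : ℝ) * (a - b)) with hr0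
    have hx' := abs_le.1 hx
    have hr' := abs_le.1 hr
    have ht : |(N : ℝ) ^ D * (b - a + (r : ℝ) / q b)| ≤ C := by
      have e : (N : ℝ) ^ D * (b - a + (r : ℝ) / q b) =
          -((N : ℝ) ^ D * ((q b : ℝ) * (a - b) - r) / q b) := by
        field_simp
        ring
      rw [e, abs_neg, abs_div, abs_mul, abs_of_pos hNp, abs_of_pos (by linarith : (0 : ℝ) < q b)]
      rw [div_le_iff₀ (by linarith)]
      calc (N : ℝ) ^ D * |(q b : ℝ) * (a - b) - r| ≤ (N : ℝ) ^ D * (C / (N : ℝ) ^ D) := by gcongr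
        _ = C := by field_simp
        _ ≤ C * q b := le_mul_of_one_le_right (Nat.cast_nonneg _) hqr
    have ht' := abs_le.1 ht
    simp only [Finset.coe_product, Set.mem_prod, Finset.coe_Icc, Set.mem_Icc]
    refine ⟨⟨hq1 b hb', hq2 b hb'⟩, ⟨?_, ?_⟩, ?_, ?_⟩
    · have : (-((C : ℝ) + 1)) ≤ (r : ℝ) := by linarith
      exact_mod_cast this
    · have : (r : ℝ) ≤ (C : ℝ) + 1 := by linarith
      exact_mod_cast this
    · rw [Int.le_floor]
      push_cast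
      exact ht'.1
    · have h5 := Int.floor_le ((N : ℝ) ^ D * (b - a + (r : ℝ) / q b))
      have : ((⌊(N : ℝ) ^ D * (b - a + (r : ℝ) / q b)⌋ : ℤ) : ℝ) ≤ (C : ℝ) := h5.trans ht'.2
      exact_mod_cast this
  · intro b hb b' hb' h
    by_contra hne
    have h1 := congrArg (fun x : ℕ × ℤ × ℤ => x.1) h
    have h2 := congrArg (fun x : ℕ × ℤ × ℤ => x.2.1) h
    have h3 := congrArg (fun x : ℕ × ℤ × ℤ => x.2.2) h
    simp only at h1 h2 h3
    have h4 := Int.abs_sub_lt_one_of_floor_eq_floor h3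
    rw [h2, h1, ← mul_sub] at h4
    have e : b - a + (round ((q b' : ℝ) * (a - b')) : ℝ) / q b' -
        (b' - a + (round ((q b' : ℝ) * (a - b')) : ℝ) / q b') = b - b' := by ring
    rw [e, abs_mul, abs_of_pos hNp] at h4
    have h5 := hs b hb b' hb' hne
    rw [div_lt_iff₀ hNp] at h5
    linarith

theorem t_CNT (hW : S_WEYL) : S_CNT := by
  classical
  intro D hD δ hδ
  have hη : 0 < δ ^ 2 / 2 := by positivity
  obtain ⟨C, hC1, hC⟩ := hW D hD (δ ^ 2 / 2) hη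
  set T : ℕ := (Icc 1 C ×ˢ (Icc (-((C : ℤ) + 1)) ((C : ℤ) + 1) ×ˢ
    Icc (-(C : ℤ)) (C : ℤ))).card with hT
  refine ⟨⌊(T : ℝ) / (δ ^ 2 / 2)⌋₊, ?_⟩
  intro f hf N m hN
  have hNr : (0 : ℝ) < N := by exact_mod_cast hN
  have hNp : (0 : ℝ) < (N : ℝ) ^ D := by positivity
  let Sep : Finset ℝ → Prop := fun A =>
    (∀ a ∈ A, a ∈ Bad f D N δ ∧ (m : ℝ) ≤ a ∧ a ≤ m + 1) ∧
      ∀ a ∈ A, ∀ b ∈ A, a ≠ b → 1 / (N : ℝ) ^ D < |a - b|
  have key : ∀ A, Sep A → A.card ≤ ⌊(T : ℝ) / (δ ^ 2 / 2)⌋₊ := by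
    rintro A ⟨hA1, hA2⟩
    rw [Nat.le_floor_iff (by positivity), le_div_iff₀ hη]
    rcases A.eq_empty_or_nonempty with h0 | h0
    · rw [h0]
      simp
    have hAp : (0 : ℝ) < A.card := by exact_mod_cast Finset.card_pos.2 h0
    have hch : ∀ a ∈ A, ∃ P : ℝ[X], P.natDegree ≤ D ∧ P.coeff D = a ∧
        δ * N ≤ ‖∑ n ∈ Ioc 0 N, f n * ex (P.eval (n : ℝ))‖ := fun a ha => (hA1 a ha).1
    choose! P hP1 hP2 hP3 using hch
    have h1 := dual A N f hf P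
    have h2 : δ * N * A.card ≤ ∑ a ∈ A, ‖∑ n ∈ Ioc 0 N, f n * ex ((P a).eval (n : ℝ))‖ := by
      calc δ * N * A.card = ∑ a ∈ A, δ * N := by rw [Finset.sum_const, nsmul_eq_mul]; ring
        _ ≤ _ := Finset.sum_le_sum fun a ha => hP3 a ha
    have h3 : (δ * N * A.card) ^ 2 ≤
        N * ∑ a ∈ A, ∑ b ∈ A, ‖∑ n ∈ Ioc 0 N, ex ((P a - P b).eval (n : ℝ))‖ :=
      (pow_le_pow_left₀ (by positivity) h2 2).trans h1
    have h4 : ∀ a ∈ A, ∑ b ∈ A, ‖∑ n ∈ Ioc 0 N, ex ((P a - P b).eval (n : ℝ))‖ ≤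
        N * T + δ ^ 2 / 2 * N * A.card := by
      intro a ha
      have h5 : ∀ b ∈ A, ‖∑ n ∈ Ioc 0 N, ex ((P a - P b).eval (n : ℝ))‖ ≤
          (if δ ^ 2 / 2 * N ≤ ‖∑ n ∈ Ioc 0 N, ex ((P a - P b).eval (n : ℝ))‖ then (N : ℝ) else 0) +
            δ ^ 2 / 2 * N := by
        intro b hb
        split_ifs with h
        · have h6 : ‖∑ n ∈ Ioc 0 N, ex ((P a - P b).eval (n : ℝ))‖ ≤ N := by
            refine (norm_sum_le _ _).trans ?_
            simp only [norm_ex, Finset.sum_const, Nat.card_Ioc, Nat.sub_zero, nsmul_eq_mul, mul_one]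
            exact le_refl _
          have : 0 ≤ δ ^ 2 / 2 * N := by positivity
          linarith
        · rw [not_le] at h
          linarith
      refine (Finset.sum_le_sum h5).trans ?_
      rw [Finset.sum_add_distrib, Finset.sum_const, nsmul_eq_mul, ← Finset.sum_filter,
        Finset.sum_const, nsmul_eq_mul]
      have h7 : (A.filter fun b => δ ^ 2 / 2 * N ≤
          ‖∑ n ∈ Ioc 0 N, ex ((P a - P b).eval (n : ℝ))‖).card ≤ T := by
        refine cnt_sep C N D m hN a (hA1 a ha).2 _ ?_ ?_ ?_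
        · intro b hb
          exact (hA1 b (Finset.mem_filter.1 hb).1).2
        · intro b hb b' hb' hne
          exact hA2 b (Finset.mem_filter.1 hb).1 b' (Finset.mem_filter.1 hb').1 hne
        · intro b hb
          rw [Finset.mem_filter] at hb
          have h8 := hC N (P a - P b) hN
            ((Polynomial.natDegree_sub_le _ _).trans (max_le (hP1 a ha) (hP1 b hb.1))) hb.2
          rwa [Polynomial.coeff_sub, hP2 a ha, hP2 b hb.1] at h8
      have h9 : ((A.filter fun b => δ ^ 2 / 2 * N ≤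
          ‖∑ n ∈ Ioc 0 N, ex ((P a - P b).eval (n : ℝ))‖).card : ℝ) ≤ T := by exact_mod_cast h7
      nlinarith
    have h10 : (δ * N * A.card) ^ 2 ≤ N * (A.card * (N * T + δ ^ 2 / 2 * N * A.card)) := by
      refine h3.trans (mul_le_mul_of_nonneg_left ?_ hNr.le)
      refine (Finset.sum_le_sum h4).trans ?_
      rw [Finset.sum_const, nsmul_eq_mul]
    have h11 : N ^ 2 * A.card * (A.card * (δ ^ 2 / 2)) ≤ N ^ 2 * A.card * (T : ℝ) := by
      nlinarith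
    exact le_of_mul_le_mul_left h11 (by positivity)
  obtain ⟨A, hA, hmax⟩ : ∃ A, Sep A ∧ ∀ B, Sep B → B.card ≤ A.card := by
    have hP0 : (fun k => ∃ A, Sep A ∧ A.card = k) 0 := ⟨∅, by simp [Sep], rfl⟩
    obtain ⟨A, hA, hc⟩ := Nat.findGreatest_spec (P := fun k => ∃ A, Sep A ∧ A.card = k)
      (n := ⌊(T : ℝ) / (δ ^ 2 / 2)⌋₊) (Nat.zero_le _) hP0
    refine ⟨A, hA, fun B hB => ?_⟩
    rw [hc]
    exact Nat.le_findGreatest (key B hB) ⟨B, hB, rfl⟩
  refine ⟨A, key A hA, ?_⟩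
  intro α hα h1 h2
  by_contra hne
  push Not at hne
  have hnm : α ∉ A := by
    intro h
    have h3 := hne α h
    rw [sub_self, abs_zero] at h3
    have : (0 : ℝ) < 1 / (N : ℝ) ^ D := by positivity
    linarith
  have h3 : Sep (insert α A) := by
    refine ⟨?_, ?_⟩
    · intro a ha
      rcases Finset.mem_insert.1 ha with rfl | ha
      · exact ⟨hα, h1, h2⟩
      · exact hA.1 a ha
    · intro a ha b hb hab
      rcases Finset.mem_insert.1 ha with ha1 | ha1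
      · rcases Finset.mem_insert.1 hb with hb1 | hb1
        · exact absurd (ha1.trans hb1.symm) hab
        · rw [ha1]
          exact hne b hb1
      · rcases Finset.mem_insert.1 hb with hb1 | hb1
        · rw [hb1, abs_sub_comm]
          exact hne a ha1
        · exact hA.2 a ha1 b hb1 hab
  have h4 := hmax _ h3
  rw [Finset.card_insert_of_notMem hnm] at h4
  omega

end Pool.Agent.H99.BF
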