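import Mathlib
import Pool.Agent.H67.BF.SDef

/-!
# Every finite group is a group of multiple elements of `SL_n(F)`
-/

set_option autoImplicit false

namespace Pool.Agent.H99.BF

open Pool.Agent.H67.BF

/-- the regular representation on `Fin d` -/
def rp {H : Type} [Group H] {d : ℕ} (ε : H ≃ Fin d) : H →* Equiv.Perm (Fin d) where
  toFun y := ε.symm.trans ((Equiv.mulLeft y).trans ε)
  map_one' := by ext; simp
  map_mul' a b := by ext; simp

lemma rp_apply {H : Type} [Group H] {d : ℕ} (ε : H ≃ Fin d) (y : H) (i : Fin d) :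
    rp ε y i = ε (y * ε.symm i) := rfl

lemma rp_inj {H : Type} [Group H] {d : ℕ} (ε : H ≃ Fin d) :
    Function.Injective (rp ε) := by
  intro a b h
  have h1 := congrArg (fun σ : Equiv.Perm (Fin d) => σ (ε 1)) h
  simpa [rp_apply] using h1

/-- `N` copies of a permutation of `Fin d` and fixed points -/
def cp {n N d l : ℕ} (E : Fin n ≃ (Fin N × Fin d) ⊕ Fin l) :
    Equiv.Perm (Fin d) →* Equiv.Perm (Fin n) where
  toFun p := (E.trans (Equiv.Perm.sumCongr (Equiv.prodCongrRight fun _ : Fin N => p) 1)).trans E.symm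
  map_one' := by
    have h : ∀ x : (Fin N × Fin d) ⊕ Fin l, Equiv.Perm.sumCongr
        (Equiv.prodCongrRight fun _ : Fin N => (1 : Equiv.Perm (Fin d))) 1 x = x := by
      rintro (⟨a, b⟩ | j) <;> rfl
    ext i
    simp only [Equiv.trans_apply, h, Equiv.symm_apply_apply]
    rfl
  map_mul' a b := by
    ext i
    simp only [Equiv.trans_apply, Equiv.Perm.mul_apply, Equiv.apply_symm_apply]
    rcases E i with ⟨a, b⟩ | j <;> simp

lemma cp_sign {n N d l : ℕ} (E : Fin n ≃ (Fin N × Fin d) ⊕ Fin l) (p : Equiv.Perm (Fin d)) :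
    Equiv.Perm.sign (cp E p) = Equiv.Perm.sign p ^ N := by
  have h1 : cp E p =
      (E.trans (Equiv.Perm.sumCongr (Equiv.prodCongrRight fun _ : Fin N => p) 1)).trans E.symm := rfl
  rw [h1, Equiv.Perm.sign_trans_trans_symm, Equiv.Perm.sign_sumCongr, Equiv.Perm.sign_one, mul_one,
    Equiv.Perm.sign_prodCongrRight, Finset.prod_const, Finset.card_univ, Fintype.card_fin]

lemma cp_inl {n N d l : ℕ} (E : Fin n ≃ (Fin N × Fin d) ⊕ Fin l) (p : Equiv.Perm (Fin d))
    (i : Fin N) (j : Fin d) : cp E p (E.symm (Sum.inl (i, j))) = E.symm (Sum.inl (i, p j)) := by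
  show E.symm (Equiv.Perm.sumCongr (Equiv.prodCongrRight fun _ : Fin N => p) 1
    (E (E.symm (Sum.inl (i, j))))) = _
  rw [Equiv.apply_symm_apply]
  rfl

lemma cp_inr {n N d l : ℕ} (E : Fin n ≃ (Fin N × Fin d) ⊕ Fin l) (p : Equiv.Perm (Fin d))
    (i : Fin l) : cp E p (E.symm (Sum.inr i)) = E.symm (Sum.inr i) := by
  show E.symm (Equiv.Perm.sumCongr (Equiv.prodCongrRight fun _ : Fin N => p) 1
    (E (E.symm (Sum.inr i)))) = _
  rw [Equiv.apply_symm_apply]
  rfl

/-- the matrices -/
def mt (F : Type) [Field F] {H : Type} [Group H] {n : ℕ} (ψ : H →* Equiv.Perm (Fin n))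
    (hψ : ∀ y, Equiv.Perm.sign (ψ y) = 1) : H →* Matrix.SpecialLinearGroup (Fin n) F where
  toFun y := ⟨((ψ y)⁻¹).permMatrix F, by
    rw [Matrix.det_permutation, Equiv.Perm.sign_inv, hψ]; simp⟩
  map_one' := by
    apply Subtype.ext
    show ((ψ 1)⁻¹).permMatrix F = 1
    rw [map_one, inv_one, Matrix.permMatrix_one]
  map_mul' a b := by
    apply Subtype.ext
    show ((ψ (a * b))⁻¹).permMatrix F = ((ψ a)⁻¹).permMatrix F * ((ψ b)⁻¹).permMatrix F
    rw [map_mul, mul_inv_rev, Matrix.permMatrix_mul]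

lemma mt_mulVec (F : Type) [Field F] {H : Type} [Group H] {n : ℕ} (ψ : H →* Equiv.Perm (Fin n))
    (hψ : ∀ y, Equiv.Perm.sign (ψ y) = 1) (y : H) (w : Fin n → F) (i : Fin n) :
    ((mt F ψ hψ y : Matrix.SpecialLinearGroup (Fin n) F) : Matrix (Fin n) (Fin n) F).mulVec w i =
      w ((ψ y)⁻¹ i) := by
  show (((ψ y)⁻¹).permMatrix F).mulVec w i = _
  rw [Matrix.permMatrix_mulVec]
  rfl

/-- the coordinates -/
def ce (F : Type) [Field F] {n N d l : ℕ} (E : Fin n ≃ (Fin N × Fin d) ⊕ Fin l) :
    (Fin n → F) ≃ₗ[F] (Fin N → Fin d → F) × (Fin l → F) :=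
  (LinearEquiv.funCongrLeft F F E.symm).trans
    ((LinearEquiv.sumArrowLequivProdArrow (Fin N × Fin d) (Fin l) F F).trans
      ((LinearEquiv.curry F F (Fin N) (Fin d)).prodCongr (LinearEquiv.refl F (Fin l → F))))

lemma ce_apply (F : Type) [Field F] {n N d l : ℕ} (E : Fin n ≃ (Fin N × Fin d) ⊕ Fin l)
    (w : Fin n → F) :
    ce F E w = ((fun i j => w (E.symm (Sum.inl (i, j)))), fun i => w (E.symm (Sum.inr i))) := rfl

/-- every finite group is isomorphic to a group of multiple elements -/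
theorem exists_multiple (H : Type) [Group H] [Finite H] (F : Type) [Field F] (N n : ℕ)
    (hN0 : 0 < N) (hN : Nat.card H ∣ N) (hn : N * Nat.card H ≤ n) :
    ∃ φ : H →* Matrix.SpecialLinearGroup (Fin n) F, Function.Injective φ ∧
      ∀ y : H, Pool.Agent.H67.BF.Multiple N (φ y) ∧
        ((φ y : Matrix (Fin n) (Fin n) F) - 1).rank ≤ N * Nat.card H := by
  classical
  set d := Nat.card H with hd
  let ε : H ≃ Fin d := Finite.equivFin H
  obtain ⟨l, hl⟩ : ∃ l, n = N * d + l := ⟨n - N * d, by omega⟩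
  let E : Fin n ≃ (Fin N × Fin d) ⊕ Fin l :=
    (finCongr hl).trans (finSumFinEquiv.symm.trans (Equiv.sumCongr finProdFinEquiv.symm
      (Equiv.refl (Fin l))))
  have hpow : ∀ y : H, y ^ N = 1 := by
    intro y
    obtain ⟨c, hc⟩ := hN
    rw [hc, pow_mul, pow_card_eq_one', one_pow]
  have hs : ∀ y : H, Equiv.Perm.sign (((cp E).comp (rp ε)) y) = 1 := by
    intro y
    rw [MonoidHom.comp_apply, cp_sign, ← map_pow, ← map_pow, hpow, map_one, map_one]
  have hcinv : ∀ y : H, (((cp E).comp (rp ε)) y)⁻¹ = cp E ((rp ε y)⁻¹) := by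
    intro y
    rw [MonoidHom.comp_apply, map_inv]
  refine ⟨mt F ((cp E).comp (rp ε)) hs, ?_, ?_⟩
  · intro a b hab
    apply rp_inj ε
    have h2 : (rp ε a)⁻¹ = (rp ε b)⁻¹ := by
      ext i
      have h3 := mt_mulVec F ((cp E).comp (rp ε)) hs a
        (Pi.single (E.symm (Sum.inl (⟨0, hN0⟩, (rp ε a)⁻¹ i))) 1) (E.symm (Sum.inl (⟨0, hN0⟩, i)))
      rw [hab, mt_mulVec, hcinv, hcinv, cp_inl, cp_inl, Pi.single_eq_same] at h3
      by_contra hne
      rw [Pi.single_eq_of_ne] at h3
      · exact zero_ne_one h3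
      · intro h4
        apply hne
        have h5 := Sum.inl_injective (E.symm.injective h4)
        have h6 := congrArg Prod.snd h5
        exact congrArg Fin.val h6.symm
    exact inv_injective h2
  · intro y
    constructor
    · refine ⟨d, l, ce F E, LinearEquiv.funCongrLeft F F ((rp ε y)⁻¹ : Equiv.Perm (Fin d)), ?_, ?_⟩
      · have h1 : ∀ (k : ℕ) (v : Fin d → F) (i : Fin d),
            ((LinearEquiv.funCongrLeft F F ((rp ε y)⁻¹ : Equiv.Perm (Fin d))) ^ k) v i =
              v (((rp ε y)⁻¹ ^ k) i) := by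
          intro k
          induction k with
          | zero => intro v i; simp
          | succ k ih =>
            intro v i
            rw [pow_succ, LinearEquiv.mul_apply, ih, pow_succ', Equiv.Perm.mul_apply]
            rfl
        ext1 v
        funext i
        rw [h1, inv_pow, ← map_pow, hpow, map_one, inv_one]
        rfl
      · intro w
        rw [ce_apply, ce_apply]
        refine Prod.ext ?_ ?_
        · funext i j
          show (mt F ((cp E).comp (rp ε)) hs y).1.mulVec w (E.symm (Sum.inl (i, j))) =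
            w (E.symm (Sum.inl (i, (rp ε y)⁻¹ j)))
          rw [mt_mulVec, hcinv, cp_inl]
        · funext i
          show (mt F ((cp E).comp (rp ε)) hs y).1.mulVec w (E.symm (Sum.inr i)) =
            w (E.symm (Sum.inr i))
          rw [mt_mulVec, hcinv, cp_inr]
    · set A := ((mt F ((cp E).comp (rp ε)) hs y : Matrix.SpecialLinearGroup (Fin n) F) :
        Matrix (Fin n) (Fin n) F) with hA
      have hz : ∀ (w : Fin n → F) (i : Fin l), (A - 1).mulVec w (E.symm (Sum.inr i)) = 0 := by
        intro w i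
        rw [Matrix.sub_mulVec, Pi.sub_apply, Matrix.one_mulVec, hA, mt_mulVec, hcinv, cp_inr,
          sub_self]
      let L : (Fin n → F) →ₗ[F] (Fin N × Fin d → F) :=
        LinearMap.funLeft F F fun x => E.symm (Sum.inl x)
      have hinj : Function.Injective (L.comp (LinearMap.range (A - 1).mulVecLin).subtype) := by
        rw [← LinearMap.ker_eq_bot, LinearMap.ker_eq_bot']
        rintro ⟨v, w, rfl⟩ hv
        apply Subtype.ext
        funext i
        obtain ⟨x, rfl⟩ := E.symm.surjective i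
        rcases x with x | x
        · exact congrFun hv x
        · exact hz w x
      have h := LinearMap.finrank_le_finrank_of_injective hinj
      rw [Module.finrank_fintype_fun_eq_card, Fintype.card_prod, Fintype.card_fin,
        Fintype.card_fin] at h
      exact h

end Pool.Agent.H99.BF
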